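import Mathlib

open Set Filter Topology Cardinal

noncomputable section

namespace Pool.Agent.Results.MP_af568f_an.NoBasic

variable {𝕜 : Type} [RCLike 𝕜]

theorem finite_zero {ι : Type} (lam : ι → ℝ) (hl : ∀ i, 1 ≤ lam i) (hinj : Function.Injective lam)
    {y : ι →₀ 𝕜} (hy : y ≠ 0) :
    {σ : ℝ | Finsupp.linearCombination 𝕜
      (fun i => (((Real.exp σ + lam i : ℝ) : 𝕜))⁻¹) y = 0}.Finite := by
  classical
  set P : Polynomial 𝕜 := ∑ i ∈ y.support, Polynomial.C (y i) *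
    ∏ j ∈ y.support.erase i, (Polynomial.X + Polynomial.C ((lam j : ℝ) : 𝕜)) with hP
  obtain ⟨i0, hi0⟩ := Finsupp.support_nonempty_iff.2 hy
  have hP0 : P ≠ 0 := by
    intro h
    have := congrArg (Polynomial.eval (-((lam i0 : ℝ) : 𝕜))) h
    simp only [hP, Polynomial.eval_finsetSum, Polynomial.eval_mul, Polynomial.eval_C,
      Polynomial.eval_prod, Polynomial.eval_add, Polynomial.eval_X, Polynomial.eval_zero] at this
    rw [Finset.sum_eq_single i0 (fun i _ hi => by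
      rw [Finset.prod_eq_zero (Finset.mem_erase.2 ⟨hi.symm, hi0⟩) (by simp), mul_zero])
      (fun h => absurd hi0 h), mul_eq_zero, Finset.prod_eq_zero_iff] at this
    rcases this with h | ⟨j, hj, h⟩
    · exact Finsupp.mem_support_iff.1 hi0 h
    · rw [neg_add_eq_zero, RCLike.ofReal_inj] at h
      exact (Finset.ne_of_mem_erase hj).symm (hinj h)
  refine ((Polynomial.finite_setOfPred_isRoot hP0).preimage
    (f := fun σ : ℝ => ((Real.exp σ : ℝ) : 𝕜))
    (RCLike.ofReal_injective.comp Real.exp_injective).injOn).subset fun σ hσ => ?_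
  simp only [mem_ofPred_eq, Finsupp.linearCombination_apply, Finsupp.sum, smul_eq_mul] at hσ
  have hne : ∀ j, ((Real.exp σ : ℝ) : 𝕜) + ((lam j : ℝ) : 𝕜) ≠ 0 := fun j => by
    rw [← RCLike.ofReal_add, RCLike.ofReal_ne_zero]
    linarith [Real.exp_pos σ, hl j]
  simp only [mem_preimage, mem_ofPred_eq, Polynomial.IsRoot.def, hP, Polynomial.eval_finsetSum,
    Polynomial.eval_mul, Polynomial.eval_C, Polynomial.eval_prod, Polynomial.eval_add,
    Polynomial.eval_X]
  rw [← mul_zero (∏ j ∈ y.support, (((Real.exp σ : ℝ) : 𝕜) + ((lam j : ℝ) : 𝕜))), ← hσ,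
    Finset.mul_sum]
  refine Finset.sum_congr rfl fun i hi => ?_
  rw [← Finset.mul_prod_erase _ _ hi, RCLike.ofReal_add]
  have := hne i
  field_simp

theorem small_bad {V : Type} [AddCommGroup V] [Module 𝕜 V] (h : ℝ → V →ₗ[𝕜] 𝕜)
    (hh : ∀ y ≠ 0, {σ | h σ y = 0}.Finite) {x : ℕ → V} (hx : LinearIndependent 𝕜 x)
    (S : Set (ℕ → 𝕜)) :
    #{σ | (fun n => h σ (x n)) ∈ Submodule.span 𝕜 S} ≤ max #S ℵ₀ := by
  classical
  have h1 : ∀ F : Finset S, {σ | (fun n => h σ (x n)) ∈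
      Submodule.span 𝕜 (Subtype.val '' (F : Set S))}.Finite := by
    intro F
    have := Module.Finite.not_linearIndependent_of_infinite (R := 𝕜)
      (fun j : ℕ => fun f : F => f.1.1 j)
    rw [linearIndependent_iff] at this
    push Not at this
    obtain ⟨c, hc, hc0⟩ := this
    refine (hh (Finsupp.linearCombination 𝕜 x c)
      fun h0 => hc0 (linearIndependent_iff.1 hx c h0)).subset fun σ hσ => ?_
    have key : Submodule.span 𝕜 (Subtype.val '' (F : Set S)) ≤ LinearMap.ker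
        (Finsupp.linearCombination 𝕜 (fun j : ℕ => (LinearMap.proj j : (ℕ → 𝕜) →ₗ[𝕜] 𝕜)) c) := by
      refine Submodule.span_le.2 ?_
      rintro _ ⟨f, hf, rfl⟩
      simpa [Finsupp.linearCombination_apply, Finsupp.sum] using congrFun hc ⟨f, hf⟩
    simpa [Finsupp.linearCombination_apply, Finsupp.sum] using key hσ
  have h2 : {σ | (fun n => h σ (x n)) ∈ Submodule.span 𝕜 S} ⊆ ⋃ F : Finset S,
      {σ | (fun n => h σ (x n)) ∈ Submodule.span 𝕜 (Subtype.val '' (F : Set S))} := by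
    intro σ hσ
    obtain ⟨T, hT, hT'⟩ := Submodule.mem_span_finite_of_mem_span hσ
    refine mem_iUnion.2 ⟨T.subtype (· ∈ S), Submodule.span_mono (fun f hf => ?_) hT'⟩
    exact ⟨⟨f, hT hf⟩, by simpa using hf, rfl⟩
  refine (mk_le_mk_of_subset h2).trans ((mk_iUnion_le _).trans ?_)
  have h3 : #(Finset S) ≤ max #S ℵ₀ := by
    cases finite_or_infinite S
    · exact le_max_of_le_right mk_le_aleph0
    · rw [mk_finset_of_infinite]; exact le_max_left _ _
  calc _ ≤ max #S ℵ₀ * max #S ℵ₀ :=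
        mul_le_mul' h3 (ciSup_le' fun F => le_max_of_le_right (h1 F).lt_aleph0.le)
    _ = _ := mul_eq_self (le_max_right _ _)

abbrev I : Type := (continuum.{0}).ord.ToType

theorem mk_I : #I = 𝔠 := mk_ord_toType _

theorem mk_Iic (t : I) : #(Iic t) < 𝔠 := by
  rw [← Iio_insert]
  exact mk_insert_le.trans_lt (add_lt_of_lt aleph0_le_continuum (mk_Iio_toType_ord_lt t)
    (one_lt_aleph0.trans aleph0_lt_continuum))

def Valid (s : I → ℕ → (I →₀ 𝕜)) (t : I) : Prop :=
  LinearIndependent 𝕜 (s t) ∧ ∀ n i, s t n i ≠ 0 → i < t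

theorem exists_enum : ∃ s : I → ℕ → (I →₀ 𝕜), ∀ x, ∃ t, s t = x ∧ ∀ n i, x n i ≠ 0 → i < t := by
  have hinf : Infinite I := infinite_iff.2 (mk_I ▸ aleph0_le_continuum)
  have hK : #𝕜 ≤ 𝔠 := by
    have := mk_le_of_injective (f := fun z : 𝕜 => (RCLike.re z, RCLike.im z))
      fun z w h => RCLike.ext (congrArg Prod.fst h) (congrArg Prod.snd h)
    simpa [mk_real] using this
  have h1 : #((ℕ → (I →₀ 𝕜)) × I) ≤ #I := by
    rw [mk_prod, lift_id, lift_id, ← power_def, mk_finsupp_of_infinite, mk_I, max_eq_left hK,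
      mk_nat, continuum_power_aleph0, continuum_mul_self]
  obtain ⟨e⟩ := (Cardinal.le_def _ _).1 h1
  refine ⟨fun t => (Function.invFun e t).1, fun x => ?_⟩
  by_contra hcon
  push Not at hcon
  have h2 : range (fun j => e (x, j)) ⊆ ⋃ p : (Σ n, (x n).support), Iic p.2.1 := by
    rintro _ ⟨j, rfl⟩
    obtain ⟨n, i, hi, hle⟩ := hcon (e (x, j)) (by
      rw [Function.leftInverse_invFun e.injective])
    exact mem_iUnion.2 ⟨⟨n, i, Finsupp.mem_support_iff.2 hi⟩, hle⟩
  have h3 := (mk_le_mk_of_subset h2).trans mk_iUnion_le_sum_mk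
  rw [mk_range_eq _ (fun a b h => by simpa using e.injective h), mk_I] at h3
  have h4 := h3.trans_lt (sum_lt_prod _ (fun _ => 𝔠) fun p => mk_Iic p.2.1)
  rw [prod_const'] at h4
  exact h4.not_ge ((power_le_power_left continuum_ne_zero mk_le_aleph0).trans
    continuum_power_aleph0.le)

def Step (s : I → ℕ → (I →₀ 𝕜)) (t : I) (ψ : ∀ t' : I, t' < t → ((I →₀ 𝕜) →ₗ[𝕜] 𝕜))
    (φ : (I →₀ 𝕜) →ₗ[𝕜] 𝕜) : Prop :=
  (∀ i, t < i → φ (Finsupp.single i 1) = 0) ∧ φ (Finsupp.single t 1) = 1 ∧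
    (Valid s t → ∀ n, 1 ≤ ‖φ (s t n)‖) ∧
    ∀ β ≤ t, Valid s β → (fun n => φ (s β n)) ∉
      Submodule.span 𝕜 (range fun t' : Iio t => fun n => ψ t'.1 t'.2 (s β n))

theorem step (s : I → ℕ → (I →₀ 𝕜)) (t : I) (ψ : ∀ t' : I, t' < t → ((I →₀ 𝕜) →ₗ[𝕜] 𝕜)) :
    ∃ φ, Step s t ψ φ := by
  classical
  obtain ⟨e⟩ : Nonempty (I ≃ ℝ) := Cardinal.eq.1 (by rw [mk_I, mk_real])
  set lam : I → ℝ := fun i => 1 + Real.exp (e i) with hlam
  have hl : ∀ i, 1 ≤ lam i := fun i => by simp [hlam, (Real.exp_pos _).le]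
  have hinj : Function.Injective lam := fun a b h =>
    e.injective (Real.exp_injective (add_left_cancel h))
  set h : ℝ → (I →₀ 𝕜) →ₗ[𝕜] 𝕜 := fun σ => Finsupp.linearCombination 𝕜
    (fun i => (((Real.exp σ + lam i : ℝ) : 𝕜))⁻¹) with hh
  have hb : ∀ σ y, ‖h σ y‖ ≤ ∑ i ∈ y.support, ‖y i‖ := by
    intro σ y
    simp only [hh, Finsupp.linearCombination_apply, Finsupp.sum, smul_eq_mul]
    refine norm_sum_le_of_le _ fun i _ => ?_
    rw [norm_mul, norm_inv, RCLike.norm_ofReal]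
    refine mul_le_of_le_one_right (norm_nonneg _) (inv_le_one_of_one_le₀ ?_)
    linarith [le_abs_self (Real.exp σ + lam i), Real.exp_pos σ, hl i]
  obtain ⟨f0, hf0⟩ : ∃ f0 : (I →₀ 𝕜) →ₗ[𝕜] 𝕜, Valid s t → ∀ n,
      f0 (s t n) = ((∑ i ∈ (s t n).support, ‖s t n i‖ + 1 : ℝ) : 𝕜) := by
    by_cases hv : Valid s t
    · obtain ⟨g, hg⟩ := LinearMap.exists_extend (Finsupp.linearCombination 𝕜
        (fun n => ((∑ i ∈ (s t n).support, ‖s t n i‖ + 1 : ℝ) : 𝕜)) ∘ₗ hv.1.repr)
      refine ⟨g, fun _ n => ?_⟩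
      have := LinearMap.congr_fun hg ⟨s t n, Submodule.subset_span ⟨n, rfl⟩⟩
      rw [LinearMap.comp_apply, LinearMap.comp_apply, hv.1.repr_eq_single n _ rfl] at this
      simpa using this
    · exact ⟨0, fun h => absurd h hv⟩
  set B : Iic t → Set ℝ := fun β => {σ | Valid s β ∧ (fun n => h σ (s β n)) ∈ Submodule.span 𝕜
    (insert (fun n => f0 (s β n)) (range fun t' : Iio t => fun n => ψ t'.1 t'.2 (s β n)))}
    with hB
  have hc := aleph0_lt_continuum
  have hB1 : ∀ β, #(B β) ≤ max (#(Iio t) + 1) ℵ₀ := by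
    intro β
    by_cases hv : Valid s β
    · simp only [hB, hv, true_and]
      refine (small_bad h (fun y hy => finite_zero lam hl hinj hy) hv.1 _).trans ?_
      exact max_le_max_right _ (mk_insert_le.trans (add_le_add_left mk_range_le _))
    · simp [hB, hv]
  have hB2 : #(⋃ β, B β) < #(univ : Set ℝ) := by
    rw [mk_univ, mk_real]
    refine (mk_iUnion_le _).trans_lt (mul_lt_of_lt hc.le (mk_Iic t) ?_)
    exact (ciSup_le' hB1).trans_lt (max_lt (add_lt_of_lt hc.le (mk_Iio_toType_ord_lt t)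
      (one_lt_aleph0.trans hc)) hc)
  obtain ⟨σ, hσ⟩ : ∃ σ, σ ∉ ⋃ β, B β := by
    by_contra h0
    push Not at h0
    exact hB2.ne (by rw [eq_univ_of_forall h0])
  set φ : (I →₀ 𝕜) →ₗ[𝕜] 𝕜 := Finsupp.linearCombination 𝕜 fun i =>
    if i < t then (f0 + h σ) (Finsupp.single i 1) else if i = t then 1 else 0 with hφ
  have hφ1 : ∀ y : I →₀ 𝕜, (∀ i, y i ≠ 0 → i < t) → φ y = f0 y + h σ y := by
    intro y hy
    rw [← LinearMap.add_apply, hφ, Finsupp.linearCombination_apply]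
    conv_rhs => rw [← Finsupp.sum_single y, map_finsuppSum]
    refine Finsupp.sum_congr fun i hi => ?_
    rw [if_pos (hy i (Finsupp.mem_support_iff.1 hi)), ← map_smul, Finsupp.smul_single_one]
  refine ⟨φ, fun i hi => by simp [hφ, hi.not_gt, hi.ne'], by simp [hφ], fun hv n => ?_,
    fun β hβ hv hmem => hσ (mem_iUnion.2 ⟨⟨β, hβ⟩, hv, ?_⟩)⟩
  · rw [hφ1 _ (hv.2 n), hf0 hv]
    have h1 := norm_sub_le (((∑ i ∈ (s t n).support, ‖s t n i‖ + 1 : ℝ) : 𝕜) + h σ (s t n))
      (h σ (s t n))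
    rw [add_sub_cancel_right, RCLike.norm_ofReal] at h1
    linarith [le_abs_self (∑ i ∈ (s t n).support, ‖s t n i‖ + 1), hb σ (s t n)]
  · have : (fun n => h σ (s β n)) = (fun n => φ (s β n)) - fun n => f0 (s β n) := by
      funext n
      rw [Pi.sub_apply, hφ1 _ fun i hi => (hv.2 n i hi).trans_le hβ, add_sub_cancel_left]
    rw [this]
    exact Submodule.sub_mem _ (Submodule.span_mono (subset_insert _ _) hmem)
      (Submodule.subset_span (mem_insert _ _))

theorem exists_cols (s : I → ℕ → (I →₀ 𝕜)) :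
    ∃ φ : I → ((I →₀ 𝕜) →ₗ[𝕜] 𝕜), ∀ t, Step s t (fun t' _ => φ t') (φ t) := by
  refine ⟨wellFounded_lt.fix fun t ψ => (step s t ψ).choose, fun t => ?_⟩
  rw [WellFounded.fix_eq]
  exact (step s t _).choose_spec

theorem interpolate {s : I → ℕ → (I →₀ 𝕜)} {φ : I → ((I →₀ 𝕜) →ₗ[𝕜] 𝕜)}
    (hφ : ∀ t, Step s t (fun t' _ => φ t') (φ t)) {β : I} (hv : Valid s β) (T : Finset I) :
    ∃ y ∈ Submodule.span 𝕜 (range (s β)), ∀ t ∈ T, φ t y = φ t (Finsupp.single β 1) := by
  classical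
  set Ψ : (I →₀ 𝕜) →ₗ[𝕜] (T → 𝕜) := LinearMap.pi fun t => φ t.1 with hΨ
  by_contra hcon
  have h1 : Ψ (Finsupp.single β 1) ∉ (Submodule.span 𝕜 (range (s β))).map Ψ := by
    rintro ⟨y, hy, h⟩
    exact hcon ⟨y, hy, fun t ht => congrFun h ⟨t, ht⟩⟩
  obtain ⟨f, hf, hf0⟩ := Submodule.exists_dual_map_eq_bot_of_notMem h1 inferInstance
  set c : T → 𝕜 := fun t => f fun j => if t = j then 1 else 0 with hc
  have hf1 : ∀ y, f (Ψ y) = ∑ t, φ t.1 y * c t := fun y => by
    rw [LinearMap.pi_apply_eq_sum_univ]; rfl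
  have hf2 : ∀ n, ∑ t, φ t.1 (s β n) * c t = 0 := fun n => by
    rw [← hf1, ← Submodule.mem_bot 𝕜, ← hf0]
    exact Submodule.mem_map_of_mem (Submodule.mem_map_of_mem (Submodule.subset_span ⟨n, rfl⟩))
  rw [hf1] at hf
  obtain ⟨t1, -, ht1⟩ := Finset.exists_ne_zero_of_sum_ne_zero hf
  obtain ⟨t0, ht0, hmax⟩ := (Finset.univ.filter fun t : T => c t ≠ 0).exists_max_image
    (fun t => t.1) ⟨t1, by simpa using right_ne_zero_of_mul ht1⟩
  simp only [Finset.mem_filter, Finset.mem_univ, true_and] at ht0 hmax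
  have hβ : β ≤ t0.1 := by
    by_contra h
    exact left_ne_zero_of_mul ht1 ((hφ t1).1 β
      ((hmax t1 (right_ne_zero_of_mul ht1)).trans_lt (not_le.1 h)))
  refine (hφ t0).2.2.2 β hβ hv ?_
  have : (fun n => φ t0.1 (s β n)) =
      ∑ t ∈ Finset.univ.erase t0, (-(c t / c t0)) • fun n => φ t.1 (s β n) := by
    funext n
    have := hf2 n
    rw [← Finset.add_sum_erase _ _ (Finset.mem_univ t0)] at this
    simp only [Finset.sum_apply, Pi.smul_apply, smul_eq_mul]
    refine mul_right_cancel₀ ht0 ?_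
    rw [eq_neg_of_add_eq_zero_left this, Finset.sum_mul, ← Finset.sum_neg_distrib]
    refine Finset.sum_congr rfl fun t _ => ?_
    field_simp
  rw [this]
  refine Submodule.sum_mem _ fun t ht => ?_
  by_cases h : c t = 0
  · simp [h]
  · refine Submodule.smul_mem _ _ (Submodule.subset_span ⟨⟨t.1, ?_⟩, rfl⟩)
    exact lt_of_le_of_ne (hmax t h) fun h' => Finset.ne_of_mem_erase ht (Subtype.ext h')

theorem result (𝕜 : Type) [RCLike 𝕜] :
    ∃ (U : Type) (_ : AddCommGroup U) (_ : Module 𝕜 U) (_ : TopologicalSpace U),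
      IsTopologicalAddGroup U ∧ ContinuousSMul 𝕜 U ∧ T2Space U ∧ PolynormableSpace 𝕜 U ∧
      ¬ FiniteDimensional 𝕜 U ∧
      ∀ x : ℕ → U, ¬ ∀ y ∈ closure (Submodule.span 𝕜 (range x) : Set U), ∃! a : ℕ → 𝕜,
        Tendsto (fun n => ∑ k ∈ Finset.range n, a k • x k) atTop (𝓝 y) := by
  classical
  obtain ⟨s, hs⟩ := exists_enum (𝕜 := 𝕜)
  obtain ⟨φ, hφ⟩ := exists_cols s
  set Φ : (I →₀ 𝕜) →ₗ[𝕜] (I → 𝕜) := LinearMap.pi φ with hΦ
  let τ : TopologicalSpace (I →₀ 𝕜) := TopologicalSpace.induced Φ inferInstance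
  have hind : IsInducing Φ := ⟨rfl⟩
  have hinj : Function.Injective Φ := by
    rw [injective_iff_map_eq_zero]
    intro y hy
    by_contra h0
    obtain ⟨i, hi, hmin⟩ := y.support.exists_min_image id (Finsupp.support_nonempty_iff.2 h0)
    have h1 : φ i y = 0 := congrFun hy i
    rw [← Finsupp.sum_single y, map_finsuppSum, Finsupp.sum, Finset.sum_eq_single i] at h1
    · rw [← Finsupp.smul_single_one, map_smul, (hφ i).2.1, smul_eq_mul, mul_one] at h1
      exact Finsupp.mem_support_iff.1 hi h1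
    · intro j hj hji
      rw [← Finsupp.smul_single_one, map_smul,
        (hφ i).1 j (lt_of_le_of_ne (hmin j hj) hji.symm), smul_zero]
    · exact fun h => absurd hi h
  have hT2 : T2Space (I →₀ 𝕜) := IsEmbedding.t2Space ⟨hind, hinj⟩
  have hG : IsTopologicalAddGroup (I →₀ 𝕜) := hind.topologicalAddGroup Φ
  have hinf : Infinite I := infinite_iff.2 (mk_I ▸ aleph0_le_continuum)
  refine ⟨I →₀ 𝕜, inferInstance, inferInstance, τ, hG, continuousSMul_induced Φ, hT2,
    hind.polynormableSpace, fun h => Module.Finite.not_linearIndependent_of_infinite _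
      (Finsupp.basisSingleOne (R := 𝕜) (ι := I)).linearIndependent, fun x hx => ?_⟩
  have hfin : ∀ (a : ℕ → 𝕜) (N : ℕ), (∀ n, N ≤ n → a n = 0) →
      Tendsto (fun n => ∑ k ∈ Finset.range n, a k • x k) atTop
        (𝓝 (∑ k ∈ Finset.range N, a k • x k)) := by
    intro a N ha
    refine tendsto_const_nhds.congr' ?_
    filter_upwards [eventually_ge_atTop N] with n hn
    refine Finset.sum_subset (Finset.range_mono hn) fun k _ hk => ?_
    rw [ha k (by simpa using hk), zero_smul]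
  have hli : LinearIndependent 𝕜 x := by
    rw [linearIndependent_iff]
    intro c hc
    obtain ⟨N, hN⟩ := c.support.exists_nat_subset_range
    have h1 := hfin c N fun n hn => by
      by_contra h
      simpa [hn.not_gt] using hN (Finsupp.mem_support_iff.2 h)
    rw [Finsupp.linearCombination_apply, Finsupp.sum_of_support_subset _ hN _ (by simp)] at hc
    rw [hc] at h1
    have := (hx 0 (subset_closure (Submodule.zero_mem _))).unique h1 (y₂ := 0) (by simp)
    ext n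
    exact congrFun this n
  obtain ⟨β, hβ, hβ'⟩ := hs x
  have hv : Valid s β := ⟨hβ ▸ hli, hβ ▸ hβ'⟩
  obtain ⟨a, ha, -⟩ := hx (Finsupp.single β 1) (by
    rw [mem_closure_iff_nhds]
    intro W hW
    rw [hind.nhds_eq_comap, mem_comap] at hW
    obtain ⟨W', hW', hsub⟩ := hW
    rw [nhds_pi, Filter.mem_pi'] at hW'
    obtain ⟨T, w, hw, hsub'⟩ := hW'
    obtain ⟨y, hy, hy'⟩ := interpolate hφ hv T
    refine ⟨y, hsub (hsub' fun t ht => ?_), hβ ▸ hy⟩
    have : Φ y t = Φ (Finsupp.single β 1) t := hy' t ht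
    rw [this]
    exact mem_of_mem_nhds (hw t))
  by_cases hfreq : ∃ᶠ n in atTop, a n ≠ 0
  · obtain ⟨m, hm, hm'⟩ := extraction_of_frequently_atTop hfreq
    obtain ⟨γ, hγ, hγ'⟩ := hs fun n => a (m n) • x (m n)
    have hv' : Valid s γ := ⟨hγ ▸ (hli.comp m hm.injective).units_smul
      fun n => Units.mk0 _ (hm' n), hγ ▸ hγ'⟩
    have h1 : Tendsto (fun n => a n • x n) atTop (𝓝 0) := by
      have := (ha.comp (tendsto_add_atTop_nat 1)).sub ha
      simpa [Finset.sum_range_succ] using this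
    have h2 := (((continuous_apply γ).comp hind.continuous).tendsto 0).comp
      (h1.comp hm.tendsto_atTop)
    rw [Function.comp_apply, map_zero, Pi.zero_apply] at h2
    obtain ⟨n, hn⟩ := (h2.norm.eventually (gt_mem_nhds (show ‖(0 : 𝕜)‖ < 1 by simp))).exists
    have h3 := (hφ γ).2.2.1 hv' n
    rw [hγ] at h3
    exact hn.not_ge h3
  · rw [not_frequently, eventually_atTop] at hfreq
    obtain ⟨N, hN⟩ := hfreq
    have h1 := tendsto_nhds_unique ha (hfin a N fun n hn => not_not.1 (hN n hn))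
    have h2 := DFunLike.congr_fun h1 β
    rw [Finsupp.single_eq_same, Finsupp.finsetSum_apply, Finset.sum_eq_zero] at h2
    · exact one_ne_zero h2
    · intro k _
      have : x k β = 0 := by_contra fun h => (hβ' k β h).false
      simp [this]

end Pool.Agent.Results.MP_af568f_an.NoBasic
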